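import Mathlib
import Pool.Agent.H740R3.Biorth

set_option autoImplicit false

open Filter Topology

namespace Pool.Agent.Results.MP_8292e8_an.SquareNotConvexCyclic

universe u

/-- the convex hull of the orbit of `x` under `T`: all finite convex combinations
`c 0 • x + c 1 • T x + ... + c (N-1) • T ^ (N-1) x` -/
def coOrb {𝕜 : Type} [RCLike 𝕜] {X : Type u} [NormedAddCommGroup X] [NormedSpace 𝕜 X]
    (T : X →L[𝕜] X) (x : X) : Set X :=
  {y | ∃ (N : ℕ) (c : ℕ → ℝ), (∀ n, 0 ≤ c n) ∧ ∑ n ∈ Finset.range N, c n = 1 ∧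
    y = ∑ n ∈ Finset.range N, ((c n : ℝ) : 𝕜) • (T ^ n) x}

/-- `T` is convex-cyclic -/
def ConvexCyclic {𝕜 : Type} [RCLike 𝕜] {X : Type u} [NormedAddCommGroup X] [NormedSpace 𝕜 X]
    (T : X →L[𝕜] X) : Prop :=
  ∃ x : X, Dense (coOrb T x)

open Pool.Agent.H740R3.Biorth

section hb

variable {𝕜 : Type} [RCLike 𝕜] {X : Type u} [NormedAddCommGroup X] [NormedSpace 𝕜 X]

theorem orb_mem (T : X →L[𝕜] X) (x : X) (n : ℕ) : (T ^ n) x ∈ coOrb T x := by
  refine ⟨n + 1, fun m => if m = n then 1 else 0, ?_, ?_, ?_⟩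
  · intro m; dsimp only; split_ifs <;> norm_num
  · rw [Finset.sum_ite_eq' (Finset.range (n + 1)) n]
    simp
  · rw [Finset.sum_eq_single n]
    · simp
    · intro b _ hb
      simp [hb]
    · intro h
      exact absurd (Finset.mem_range.2 (Nat.lt_succ_self n)) h

theorem sum_extend (T : X →L[𝕜] X) (x : X) {N : ℕ} {c : ℕ → ℝ} (hc : ∀ n, 0 ≤ c n)
    (hs : ∑ n ∈ Finset.range N, c n = 1) (M : ℕ) (hM : N ≤ M) :
    ∃ d : ℕ → ℝ, (∀ n, 0 ≤ d n) ∧ ∑ n ∈ Finset.range M, d n = 1 ∧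
      ∑ n ∈ Finset.range M, ((d n : ℝ) : 𝕜) • (T ^ n) x =
        ∑ n ∈ Finset.range N, ((c n : ℝ) : 𝕜) • (T ^ n) x := by
  refine ⟨fun n => if n < N then c n else 0, ?_, ?_, ?_⟩
  · intro n; dsimp only; split_ifs
    · exact hc n
    · exact le_refl 0
  · rw [← hs]
    symm
    rw [← Finset.sum_subset (Finset.range_mono hM) (f := fun n => if n < N then c n else 0)]
    · apply Finset.sum_congr rfl
      intro n hn
      simp [Finset.mem_range.1 hn]
    · intro n _ hn
      simp [Finset.mem_range] at hn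
      simp [hn]
  · symm
    rw [← Finset.sum_subset (Finset.range_mono hM)
      (f := fun n => (((if n < N then c n else 0 : ℝ)) : 𝕜) • (T ^ n) x)]
    · apply Finset.sum_congr rfl
      intro n hn
      simp [Finset.mem_range.1 hn]
    · intro n _ hn
      simp [Finset.mem_range] at hn
      simp [hn]

theorem convex_coOrb (T : X →L[𝕜] X) (x : X) :
    letI := NormedSpace.restrictScalars ℝ 𝕜 X
    Convex ℝ (coOrb T x) := by
  let := NormedSpace.restrictScalars ℝ 𝕜 X
  rintro _ ⟨N, c, hc, hcs, rfl⟩ _ ⟨M, d, hd, hds, rfl⟩ a b ha hb hab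
  obtain ⟨c', hc', hcs', hce⟩ := sum_extend (𝕜 := 𝕜) T x hc hcs (max N M) (le_max_left _ _)
  obtain ⟨d', hd', hds', hde⟩ := sum_extend (𝕜 := 𝕜) T x hd hds (max N M) (le_max_right _ _)
  refine ⟨max N M, fun n => a * c' n + b * d' n, ?_, ?_, ?_⟩
  · intro n
    have := hc' n; have := hd' n
    positivity
  · rw [Finset.sum_add_distrib, ← Finset.mul_sum, ← Finset.mul_sum, hcs', hds']
    simpa using hab
  · rw [← hce, ← hde]
    have h1 : ∀ (r : ℝ) (z : X), r • z = ((r : ℝ) : 𝕜) • z := fun r z => rfl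
    rw [h1, h1, Finset.smul_sum, Finset.smul_sum, ← Finset.sum_add_distrib]
    apply Finset.sum_congr rfl
    intro n _
    rw [smul_smul, smul_smul, ← add_smul]
    push_cast
    rfl

/-- Hahn-Banach criterion -/
theorem dense_of (T : X →L[𝕜] X) (x : X)
    (h : ∀ f : StrongDual 𝕜 X, f ≠ 0 → ∀ C : ℝ, ∃ n : ℕ, C < RCLike.re (f ((T ^ n) x))) :
    Dense (coOrb T x) := by
  let := NormedSpace.restrictScalars ℝ 𝕜 X
  intro z
  by_contra hz
  have hconv : Convex ℝ (closure (coOrb T x)) := (convex_coOrb T x).closure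
  obtain ⟨f, u, hf1, hf2⟩ := RCLike.geometric_hahn_banach_closed_point (𝕜 := 𝕜) hconv
    isClosed_closure hz
  have hf0 : f ≠ 0 := by
    rintro rfl
    have h1 := hf1 x (subset_closure (by simpa using orb_mem T x 0))
    simp only [zero_apply, map_zero] at h1 hf2
    linarith
  obtain ⟨n, hn⟩ := h f hf0 u
  have h2 := hf1 _ (subset_closure (orb_mem T x n))
  linarith

end hb

section op

variable {𝕜 : Type} [RCLike 𝕜] {X : Type u} [NormedAddCommGroup X] [NormedSpace 𝕜 X]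

noncomputable def ep (e : ℕ → X) (g : ℕ → StrongDual 𝕜 X) (n : ℕ) : ℝ :=
  (1 / 2) ^ n / (1 + ∑ i ∈ Finset.range (n + 1), ‖g i‖ * ‖e i‖)

variable (e : ℕ → X) (g : ℕ → StrongDual 𝕜 X)

theorem den_pos (n : ℕ) : (1:ℝ) ≤ 1 + ∑ i ∈ Finset.range (n + 1), ‖g i‖ * ‖e i‖ := by
  have : 0 ≤ ∑ i ∈ Finset.range (n + 1), ‖g i‖ * ‖e i‖ :=
    Finset.sum_nonneg (fun i _ => by positivity)
  linarith

theorem ep_pos (n : ℕ) : 0 < ep e g n := by
  have := den_pos e g n
  unfold ep
  positivity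

theorem ep_anti {m n : ℕ} (h : m < n) : ep e g n < ep e g m := by
  have hstep : ∀ k, ep e g (k + 1) < ep e g k := by
    intro k
    unfold ep
    have h1 := den_pos e g k
    have h2 : ∑ i ∈ Finset.range (k + 1), ‖g i‖ * ‖e i‖ ≤
        ∑ i ∈ Finset.range (k + 1 + 1), ‖g i‖ * ‖e i‖ := by
      rw [Finset.sum_range_succ _ (k + 1)]
      have : 0 ≤ ‖g (k + 1)‖ * ‖e (k + 1)‖ := by positivity
      linarith
    have h3 : (1 / 2 : ℝ) ^ (k + 1) < (1 / 2) ^ k := by
      rw [pow_succ]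
      have : (0:ℝ) < (1 / 2) ^ k := by positivity
      linarith
    exact div_lt_div₀ h3 (by linarith) (by positivity) (by linarith)
  exact strictAnti_nat_of_succ_lt hstep h

theorem ep_mul (n : ℕ) : ep e g n * (‖g n‖ * ‖e n‖) ≤ (1 / 2) ^ n := by
  have h1 := den_pos e g n
  unfold ep
  rw [div_mul_eq_mul_div, div_le_iff₀ (by linarith)]
  apply mul_le_mul_of_nonneg_left _ (by positivity)
  have : ‖g n‖ * ‖e n‖ ≤ ∑ i ∈ Finset.range (n + 1), ‖g i‖ * ‖e i‖ :=
    Finset.single_le_sum (f := fun i => ‖g i‖ * ‖e i‖) (fun i _ => by positivity)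
      (Finset.mem_range.2 (Nat.lt_succ_self n))
  linarith

theorem summ_half : Summable (fun n : ℕ => (1 / 2 : ℝ) ^ n) :=
  summable_geometric_of_lt_one (by norm_num) (by norm_num)

variable [CompleteSpace X]

theorem summ_K : Summable (fun n => ((ep e g n : ℝ) : 𝕜) • (g n).smulRight (e n)) := by
  apply Summable.of_norm_bounded summ_half
  intro n
  rw [norm_smul, RCLike.norm_ofReal, abs_of_pos (ep_pos e g n), ContinuousLinearMap.norm_smulRight_apply]
  exact ep_mul e g n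

noncomputable def K : X →L[𝕜] X := ∑' n, ((ep e g n : ℝ) : 𝕜) • (g n).smulRight (e n)

theorem K_hasSum (x : X) : HasSum (fun n => ((ep e g n : ℝ) : 𝕜) • (g n x • e n)) (K e g x) := by
  have h := (summ_K e g).hasSum.mapL (ContinuousLinearMap.apply 𝕜 X x)
  exact h

variable {e g} (hb : ∀ i j, i ≠ j → g i (e j) = 0) (hd : ∀ i, g i (e i) = 1 ∨ (e i = 0 ∧ g i = 0))

include hb hd

theorem K_e (m : ℕ) : K e g (e m) = ((ep e g m : ℝ) : 𝕜) • e m := by
  have h1 := K_hasSum e g (e m)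
  have h2 := hasSum_single (f := fun n => ((ep e g n : ℝ) : 𝕜) • (g n (e m) • e n)) m (by
    intro n hn
    rw [hb n m hn, zero_smul, smul_zero])
  have h3 := h1.unique h2
  rw [h3]
  rcases hd m with h | ⟨h, -⟩
  · rw [h, one_smul]
  · rw [h]; simp

theorem g_K (m : ℕ) (x : X) : g m (K e g x) = ((ep e g m : ℝ) : 𝕜) * g m x := by
  have h1 := (K_hasSum e g x).mapL (g m)
  have h2 := hasSum_single (f := fun n => g m (((ep e g n : ℝ) : 𝕜) • (g n x • e n))) m (by
    intro n hn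
    rw [map_smul, map_smul, hb m n (Ne.symm hn), smul_zero, smul_zero])
  have h3 := h1.unique h2
  rw [h3, map_smul, map_smul]
  rcases hd m with h | ⟨-, h⟩
  · rw [h]; simp
  · rw [h]; simp

omit hb hd

variable (e g) in
/-- the operator -/
noncomputable def Sop (θ : 𝕜) : X →L[𝕜] X := θ • ((2 : 𝕜) • ContinuousLinearMap.id 𝕜 X + K e g)

include hb hd

theorem Sop_pow_e (θ : 𝕜) (m n : ℕ) :
    (Sop e g θ ^ n) (e m) = (θ ^ n * (((2 + ep e g m) ^ n : ℝ) : 𝕜)) • e m := by
  induction n with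
  | zero => simp
  | succ n ih =>
    rw [pow_succ', mul_apply_eq_comp, ih, map_smul]
    have h1 : Sop e g θ (e m) = (θ * ((2 + ep e g m : ℝ) : 𝕜)) • e m := by
      show θ • ((2 : 𝕜) • e m + K e g (e m)) = _
      rw [K_e hb hd, ← add_smul, smul_smul]
      push_cast
      rfl
    rw [h1, smul_smul]
    congr 1
    push_cast
    ring

theorem g_Sop_pow (θ : 𝕜) (m n : ℕ) (x : X) :
    g m ((Sop e g θ ^ n) x) = θ ^ n * (((2 + ep e g m) ^ n : ℝ) : 𝕜) * g m x := by
  induction n with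
  | zero => simp
  | succ n ih =>
    rw [pow_succ', mul_apply_eq_comp]
    have h1 : ∀ z, g m (Sop e g θ z) = θ * ((2 + ep e g m : ℝ) : 𝕜) * g m z := by
      intro z
      show g m (θ • ((2 : 𝕜) • z + K e g z)) = _
      rw [map_smul, map_add, map_smul, g_K hb hd]
      push_cast
      simp only [smul_eq_mul]
      ring
    rw [h1, ih]
    push_cast
    ring

omit hb hd

/-- the convex-cyclic vector -/
noncomputable def wt (e : ℕ → X) (n : ℕ) : ℝ := (1 / 2) ^ n / (1 + ‖e n‖)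

omit [NormedSpace 𝕜 X] [CompleteSpace X] in
theorem wt_pos (e : ℕ → X) (n : ℕ) : 0 < wt e n := by unfold wt; positivity

omit [NormedSpace 𝕜 X] [CompleteSpace X] in
theorem wt_mul (e : ℕ → X) (n : ℕ) : wt e n * ‖e n‖ ≤ (1 / 2) ^ n := by
  unfold wt
  rw [div_mul_eq_mul_div, div_le_iff₀ (by positivity)]
  apply mul_le_mul_of_nonneg_left _ (by positivity)
  linarith

theorem summ_x (e : ℕ → X) : Summable (fun n => ((wt e n : ℝ) : 𝕜) • e n) := by
  apply Summable.of_norm_bounded summ_half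
  intro n
  rw [norm_smul, RCLike.norm_ofReal, abs_of_pos (wt_pos e n)]
  exact wt_mul e n

variable (𝕜) in
noncomputable def xv (e : ℕ → X) : X := ∑' n, ((wt e n : ℝ) : 𝕜) • e n

include hb hd

theorem f_orbit (θ : 𝕜) (f : StrongDual 𝕜 X) (n : ℕ) :
    HasSum (fun m => θ ^ n * ((((2 + ep e g m) ^ n * wt e m : ℝ) : 𝕜) * f (e m)))
      (f ((Sop e g θ ^ n) (xv 𝕜 e))) := by
  have h1 := ((summ_x (𝕜 := 𝕜) e).hasSum.mapL (Sop e g θ ^ n)).mapL f
  have h2 : (fun m => θ ^ n * ((((2 + ep e g m) ^ n * wt e m : ℝ) : 𝕜) * f (e m))) =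
      fun m => f ((Sop e g θ ^ n) (((wt e m : ℝ) : 𝕜) • e m)) := by
    funext m
    rw [map_smul, Sop_pow_e hb hd, map_smul, map_smul, smul_eq_mul, smul_eq_mul]
    push_cast
    ring
  rw [h2]
  exact h1

theorem unbounded (hspan : Dense (Submodule.span 𝕜 (Set.range e) : Set X)) (θ : 𝕜)
    (hθ4 : θ ^ 4 = 1) (hθn : ‖θ‖ = 1) (hres : ∀ z : 𝕜, z ≠ 0 → ∃ r : ℕ, 0 < RCLike.re (θ ^ r * z))
    (f : StrongDual 𝕜 X) (hf : f ≠ 0) (C : ℝ) :
    ∃ n : ℕ, C < RCLike.re (f ((Sop e g θ ^ n) (xv 𝕜 e))) := by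
  classical
  have hex : ∃ m, f (e m) ≠ 0 := by
    by_contra hcon
    push Not at hcon
    apply hf
    have h1 : ∀ x ∈ Submodule.span 𝕜 (Set.range e), f x = 0 := by
      intro x hx
      induction hx using Submodule.span_induction with
      | mem x hx => obtain ⟨n, rfl⟩ := hx; exact hcon n
      | zero => exact map_zero f
      | add x y _ _ hx hy => rw [map_add, hx, hy, add_zero]
      | smul c x _ hx => rw [map_smul, hx, smul_zero]
    have h2 : (f : X → 𝕜) = fun _ => (0 : 𝕜) :=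
      Continuous.ext_on hspan f.continuous continuous_const (fun x hx => h1 x hx)
    ext x
    exact congrFun h2 x
  set j := Nat.find hex with hj
  have hj1 : f (e j) ≠ 0 := Nat.find_spec hex
  have hj2 : ∀ m < j, f (e m) = 0 := fun m hm => by
    have := Nat.find_min hex hm
    push Not at this
    exact this
  obtain ⟨r, hr⟩ := hres (f (e j)) hj1
  set a : ℝ := 2 + ep e g j with ha
  set b : ℝ := 2 + ep e g (j + 1) with hb'
  have hba : b < a := by
    have := ep_anti e g (Nat.lt_succ_self j)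
    simp only [ha, hb']
    linarith
  have hb2 : 2 < b := by
    have := ep_pos e g (j + 1)
    simp only [hb']
    linarith
  set c : ℝ := wt e j * RCLike.re (θ ^ r * f (e j)) with hc
  have hcpos : 0 < c := mul_pos (wt_pos e j) hr
  set D : ℝ := ‖f‖ * 2 with hD
  -- main estimate
  have hmain : ∀ n, RCLike.re (θ ^ n * (((a ^ n * wt e j : ℝ) : 𝕜) * f (e j))) - b ^ n * D ≤
      RCLike.re (f ((Sop e g θ ^ n) (xv 𝕜 e))) := by
    intro n
    have h1 := f_orbit hb hd θ f n
    have h2 := h1.sub (hasSum_ite_eq j (θ ^ n * (((a ^ n * wt e j : ℝ) : 𝕜) * f (e j))))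
    have h3 : HasSum (fun m : ℕ => b ^ n * ‖f‖ * (1 / 2 : ℝ) ^ m) (b ^ n * ‖f‖ * 2) := by
      have := hasSum_geometric_two
      exact this.mul_left _
    have h4 : ∀ m, ‖θ ^ n * ((((2 + ep e g m) ^ n * wt e m : ℝ) : 𝕜) * f (e m)) -
        (if m = j then θ ^ n * (((a ^ n * wt e j : ℝ) : 𝕜) * f (e j)) else 0)‖ ≤
        b ^ n * ‖f‖ * (1 / 2 : ℝ) ^ m := by
      intro m
      have hnn : 0 ≤ b ^ n * ‖f‖ * (1 / 2 : ℝ) ^ m := by positivity
      rcases lt_trichotomy m j with hm | hm | hm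
      · rw [hj2 m hm, if_neg hm.ne]
        simpa using hnn
      · subst hm
        rw [if_pos rfl, sub_self, norm_zero]
        exact hnn
      · rw [if_neg hm.ne', sub_zero, norm_mul, norm_pow, hθn, one_pow, one_mul, norm_mul,
          RCLike.norm_ofReal]
        have h5 : ep e g m ≤ ep e g (j + 1) := by
          rcases eq_or_lt_of_le (Nat.succ_le_of_lt hm) with h | h
          · rw [← h]
          · exact (ep_anti e g h).le
        have h6 : 0 < ep e g m := ep_pos e g m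
        have h7 := wt_pos e m
        rw [abs_of_pos (by positivity)]
        have h8 : (2 + ep e g m) ^ n ≤ b ^ n := pow_le_pow_left₀ (by linarith) (by simp only [hb']; linarith) n
        have h9 := f.le_opNorm (e m)
        have h10 := wt_mul e m
        calc (2 + ep e g m) ^ n * wt e m * ‖f (e m)‖
            ≤ b ^ n * wt e m * (‖f‖ * ‖e m‖) := by gcongr
          _ = b ^ n * ‖f‖ * (wt e m * ‖e m‖) := by ring
          _ ≤ b ^ n * ‖f‖ * (1 / 2) ^ m := by gcongr
    have h5 := tsum_of_norm_bounded h3 h4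
    rw [h2.tsum_eq] at h5
    have h6 := (RCLike.abs_re_le_norm (f ((Sop e g θ ^ n) (xv 𝕜 e)) -
      θ ^ n * (((a ^ n * wt e j : ℝ) : 𝕜) * f (e j)))).trans h5
    rw [map_sub] at h6
    have h7 := (abs_le.1 h6).1
    have h8 : b ^ n * D = b ^ n * ‖f‖ * 2 := by rw [hD]; ring
    rw [h8]
    linarith
  -- growth
  have hapos0 : 0 < a := by linarith
  have hbpos0 : 0 < b := by linarith
  have hlim1 : Tendsto (fun n : ℕ => D * (b / a) ^ n) atTop (𝓝 0) := by
    have := (tendsto_pow_atTop_nhds_zero_of_lt_one (r := b / a) (by positivity)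
      (by rw [div_lt_one (by linarith)]; exact hba)).const_mul D
    simpa using this
  have hlim2 : Tendsto (fun n : ℕ => a ^ n * (c / 2)) atTop atTop :=
    (tendsto_pow_atTop_atTop_of_one_lt (by linarith)).atTop_mul_const (by positivity)
  obtain ⟨N, hN⟩ := eventually_atTop.1
    ((hlim1.eventually (gt_mem_nhds (show (0:ℝ) < c / 2 by positivity))).and
      (hlim2.eventually (eventually_gt_atTop C)))
  refine ⟨4 * N + r, ?_⟩
  obtain ⟨hN1, hN2⟩ := hN (4 * N + r) (by omega)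
  refine lt_of_lt_of_le ?_ (hmain (4 * N + r))
  have h1 : RCLike.re (θ ^ (4 * N + r) * (((a ^ (4 * N + r) * wt e j : ℝ) : 𝕜) * f (e j))) =
      a ^ (4 * N + r) * c := by
    have h2 : θ ^ (4 * N + r) = θ ^ r := by rw [pow_add, pow_mul, hθ4, one_pow, one_mul]
    rw [h2]
    have h3 : θ ^ r * (((a ^ (4 * N + r) * wt e j : ℝ) : 𝕜) * f (e j)) =
        ((a ^ (4 * N + r) * wt e j : ℝ) : 𝕜) * (θ ^ r * f (e j)) := by ring
    rw [h3, RCLike.re_ofReal_mul, hc]
    ring
  rw [h1]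
  have hapos : 0 < a ^ (4 * N + r) := by positivity
  have h4 : b ^ (4 * N + r) * D = a ^ (4 * N + r) * (D * (b / a) ^ (4 * N + r)) := by
    rw [div_pow]
    field_simp
  rw [h4]
  have h5 : a ^ (4 * N + r) * (D * (b / a) ^ (4 * N + r)) ≤ a ^ (4 * N + r) * (c / 2) :=
    mul_le_mul_of_nonneg_left hN1.le hapos.le
  linarith

theorem not_convexCyclic_sq {m : ℕ} (hm : g m (e m) = 1) (θ : 𝕜)
    (hθ : (θ ^ 2 = 1 ∧ (RCLike.I : 𝕜) = 0) ∨ (θ ^ 2 = -1 ∧ (RCLike.I : 𝕜) * RCLike.I = -1)) :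
    ¬ ConvexCyclic (Sop e g θ ^ 2) := by
  rintro ⟨x, hx⟩
  set w : 𝕜 := g m x with hw
  -- every combination is mapped to a real multiple of `w`
  have key : ∀ y ∈ coOrb (Sop e g θ ^ 2) x, ∃ t : ℝ, g m y = (t : 𝕜) * w ∧
      ((RCLike.I : 𝕜) = 0 → 0 ≤ t) := by
    rintro _ ⟨N, c, hc, hcs, rfl⟩
    have hρ : (0:ℝ) < 2 + ep e g m := by have := ep_pos e g m; linarith
    rcases hθ with ⟨h1, h2⟩ | ⟨h1, h2⟩
    · refine ⟨∑ n ∈ Finset.range N, c n * (2 + ep e g m) ^ (2 * n), ?_, ?_⟩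
      · rw [map_sum]
        have h3 : ∀ n ∈ Finset.range N, g m (((c n : ℝ) : 𝕜) • ((Sop e g θ ^ 2) ^ n) x) =
            ((c n * (2 + ep e g m) ^ (2 * n) : ℝ) : 𝕜) * w := by
          intro n _
          rw [map_smul, ← pow_mul, g_Sop_pow hb hd, smul_eq_mul, pow_mul θ, h1, one_pow]
          push_cast
          ring
        rw [Finset.sum_congr rfl h3, ← Finset.sum_mul]
        push_cast
        rfl
      · intro _
        apply Finset.sum_nonneg
        intro n _
        have := hc n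
        positivity
    · refine ⟨∑ n ∈ Finset.range N, c n * ((-1) ^ n * (2 + ep e g m) ^ (2 * n)), ?_, ?_⟩
      · rw [map_sum]
        have h3 : ∀ n ∈ Finset.range N, g m (((c n : ℝ) : 𝕜) • ((Sop e g θ ^ 2) ^ n) x) =
            ((c n * ((-1) ^ n * (2 + ep e g m) ^ (2 * n)) : ℝ) : 𝕜) * w := by
          intro n _
          rw [map_smul, ← pow_mul, g_Sop_pow hb hd, smul_eq_mul, pow_mul θ, h1]
          push_cast
          ring
        rw [Finset.sum_congr rfl h3, ← Finset.sum_mul]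
        push_cast
        rfl
      · intro h3
        rw [h3] at h2
        norm_num at h2
  -- a closed half-space
  obtain ⟨d, hd0, hdle⟩ : ∃ d : 𝕜, d ≠ 0 ∧ ∀ y ∈ coOrb (Sop e g θ ^ 2) x,
      RCLike.re (d * g m y) ≤ 0 := by
    by_cases hw0 : w = 0
    · refine ⟨1, one_ne_zero, fun y hy => ?_⟩
      obtain ⟨t, ht, -⟩ := key y hy
      rw [ht, hw0]
      simp
    · have hstar : (starRingEnd 𝕜) w ≠ 0 := by simpa using hw0
      rcases hθ with ⟨h1, h2⟩ | ⟨h1, h2⟩
      · refine ⟨-(starRingEnd 𝕜) w, neg_ne_zero.2 hstar, fun y hy => ?_⟩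
        obtain ⟨t, ht, ht2⟩ := key y hy
        have h3 : -(starRingEnd 𝕜) w * g m y = ((-(t * ‖w‖ ^ 2) : ℝ) : 𝕜) := by
          rw [ht]
          have : (starRingEnd 𝕜) w * w = ((‖w‖ ^ 2 : ℝ) : 𝕜) := by
            rw [RCLike.conj_mul]; push_cast; rfl
          calc -(starRingEnd 𝕜) w * ((t : 𝕜) * w) = -((t : 𝕜) * ((starRingEnd 𝕜) w * w)) := by ring
            _ = _ := by rw [this]; push_cast; ring
        rw [h3, RCLike.ofReal_re]
        have := ht2 h2
        have h4 : 0 ≤ t * ‖w‖ ^ 2 := by positivity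
        linarith
      · have hI : (RCLike.I : 𝕜) ≠ 0 := by
          intro h3
          rw [h3] at h2
          norm_num at h2
        refine ⟨RCLike.I * (starRingEnd 𝕜) w, mul_ne_zero hI hstar, fun y hy => ?_⟩
        obtain ⟨t, ht, -⟩ := key y hy
        have h3 : RCLike.I * (starRingEnd 𝕜) w * g m y = ((t * ‖w‖ ^ 2 : ℝ) : 𝕜) * RCLike.I := by
          rw [ht]
          have : (starRingEnd 𝕜) w * w = ((‖w‖ ^ 2 : ℝ) : 𝕜) := by
            rw [RCLike.conj_mul]; push_cast; rfl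
          calc RCLike.I * (starRingEnd 𝕜) w * ((t : 𝕜) * w)
              = (t : 𝕜) * ((starRingEnd 𝕜) w * w) * RCLike.I := by ring
            _ = _ := by rw [this]; push_cast; ring
        rw [h3, RCLike.re_ofReal_mul, RCLike.I_re, mul_zero]
  have hclosed : IsClosed {y : X | RCLike.re (d * g m y) ≤ 0} := by
    apply isClosed_le _ continuous_const
    exact RCLike.continuous_re.comp (continuous_const.mul (g m).continuous)
  have hall : ∀ y : X, RCLike.re (d * g m y) ≤ 0 := by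
    intro y
    have h1 : closure (coOrb (Sop e g θ ^ 2) x) ⊆ {y : X | RCLike.re (d * g m y) ≤ 0} :=
      closure_minimal hdle hclosed
    exact h1 (hx y)
  have h1 := hall ((starRingEnd 𝕜) d • e m)
  rw [map_smul, hm, smul_eq_mul, mul_one] at h1
  have h2 : d * (starRingEnd 𝕜) d = ((‖d‖ ^ 2 : ℝ) : 𝕜) := by
    rw [RCLike.mul_conj]; push_cast; rfl
  rw [h2, RCLike.ofReal_re] at h1
  have h3 : 0 < ‖d‖ := norm_pos_iff.2 hd0
  have h4 : 0 < ‖d‖ ^ 2 := by positivity
  linarith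

end op

/-- a scalar that rotates: `-1` over the reals, `i` over the complex numbers -/
theorem exists_theta (𝕜 : Type) [RCLike 𝕜] : ∃ θ : 𝕜, θ ^ 4 = 1 ∧ ‖θ‖ = 1 ∧
    (∀ z : 𝕜, z ≠ 0 → ∃ r : ℕ, 0 < RCLike.re (θ ^ r * z)) ∧
    ((θ ^ 2 = 1 ∧ (RCLike.I : 𝕜) = 0) ∨ (θ ^ 2 = -1 ∧ (RCLike.I : 𝕜) * RCLike.I = -1)) := by
  rcases RCLike.I_mul_I (K := 𝕜) with h | h
  · refine ⟨-1, by norm_num, by simp, ?_, Or.inl ⟨by norm_num, h⟩⟩
    intro z hz
    have hz2 : RCLike.re z ≠ 0 := by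
      intro h1
      apply hz
      have h2 := RCLike.re_add_im z
      rw [h1, h] at h2
      simpa using h2.symm
    rcases lt_or_gt_of_ne hz2 with h1 | h1
    · exact ⟨1, by simpa using h1⟩
    · exact ⟨0, by simpa using h1⟩
  · have hI2 : (RCLike.I : 𝕜) ^ 2 = -1 := by rw [sq]; exact h
    have hI0 : (RCLike.I : 𝕜) ≠ 0 := by
      intro h3
      rw [h3] at h
      norm_num at h
    refine ⟨RCLike.I, ?_, RCLike.norm_I_of_ne_zero hI0, ?_, Or.inr ⟨hI2, h⟩⟩
    · have : (RCLike.I : 𝕜) ^ 4 = ((RCLike.I : 𝕜) ^ 2) ^ 2 := by ring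
      rw [this, hI2]
      norm_num
    · intro z hz
      by_cases h1 : RCLike.re z = 0
      · have h2 : RCLike.im z ≠ 0 := by
          intro h3
          exact hz (RCLike.ext (by simpa using h1) (by simpa using h3))
        have hIi : RCLike.im (RCLike.I : 𝕜) = 1 := by
          have h5 := RCLike.I_im' z
          exact mul_right_cancel₀ h2 (by rw [h5, one_mul])
        have h4 : RCLike.re ((RCLike.I : 𝕜) * z) = - RCLike.im z := by
          rw [RCLike.mul_re, RCLike.I_re, hIi]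
          ring
        rcases lt_or_gt_of_ne h2 with h3 | h3
        · refine ⟨1, ?_⟩
          rw [pow_one, h4]
          linarith
        · refine ⟨3, ?_⟩
          have h5 : (RCLike.I : 𝕜) ^ 3 * z = -(RCLike.I * z) := by
            have : (RCLike.I : 𝕜) ^ 3 = RCLike.I ^ 2 * RCLike.I := by ring
            rw [this, hI2]
            ring
          rw [h5, map_neg, h4]
          linarith
      · rcases lt_or_gt_of_ne h1 with h3 | h3
        · refine ⟨2, ?_⟩
          rw [hI2]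
          simpa using h3
        · exact ⟨0, by simpa using h3⟩

/-- On every nonzero separable Banach space over the real or the complex numbers there is a
convex-cyclic operator whose square is not convex-cyclic. -/
theorem result (𝕜 : Type) [RCLike 𝕜] (X : Type u) [NormedAddCommGroup X] [NormedSpace 𝕜 X]
    [CompleteSpace X] [TopologicalSpace.SeparableSpace X] [Nontrivial X] :
    ∃ S : X →L[𝕜] X, ConvexCyclic S ∧ ¬ ConvexCyclic (S ^ 2) := by
  obtain ⟨e, g, hb, hd, hspan⟩ := exists_biorth 𝕜 X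
  obtain ⟨θ, h1, h2, h3, h4⟩ := exists_theta 𝕜
  obtain ⟨m, hm⟩ : ∃ m, g m (e m) = 1 := by
    by_contra hcon
    push Not at hcon
    have he : ∀ m, e m = 0 := fun m => ((hd m).resolve_left (hcon m)).1
    obtain ⟨z, hz⟩ := exists_ne (0 : X)
    have hsp : Submodule.span 𝕜 (Set.range e) = ⊥ := by
      rw [Submodule.span_eq_bot]
      rintro _ ⟨n, rfl⟩
      exact he n
    rw [hsp] at hspan
    have h5 := hspan z
    have h6 : IsClosed ((⊥ : Submodule 𝕜 X) : Set X) := by
      rw [Submodule.bot_coe]; exact isClosed_singleton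
    rw [h6.closure_eq] at h5
    exact hz (by simpa using h5)
  exact ⟨Sop e g θ, ⟨xv 𝕜 e, dense_of _ _ (unbounded hb hd hspan θ h1 h2 h3)⟩,
    not_convexCyclic_sq hb hd hm θ h4⟩

end Pool.Agent.Results.MP_8292e8_an.SquareNotConvexCyclic
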